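import Pool.Agent.TH569.HP.Wrap

/-!
# One nondegenerate two-form and the hyperplane condition in dimension six
-/

set_option autoImplicit false

namespace Pool.Agent.N500.HP6

open Finset

/-- The part of a skew array orthogonal to `w ∧ V`. -/
theorem arr_norm (A : Fin 6 → Fin 6 → ℝ) (hA : ∀ a b, A b a = - A a b) (w : Fin 6 → ℝ)
    (hw : ∑ a, w a ^ 2 = 1) (u : Fin 6 → ℝ) (hu : ∀ b, u b = ∑ a, w a * A a b) :
    ∑ a, ∑ b, (A a b - w a * u b + u a * w b) ^ 2 = ∑ a, ∑ b, A a b ^ 2 - 2 * ∑ b, u b ^ 2 := by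
  have hwu : ∑ a, w a * u a = 0 := by
    have h1 : ∑ b, w b * u b = ∑ b, ∑ a, w b * (w a * A a b) := by
      refine sum_congr rfl fun b _ => ?_
      rw [hu, mul_sum]
    have h2 : ∑ b, ∑ a, w b * (w a * A a b) = ∑ b, ∑ a, w a * (w b * A b a) := sum_comm
    have h3 : ∑ b, ∑ a, w a * (w b * A b a) = - ∑ b, ∑ a, w b * (w a * A a b) := by
      rw [← sum_neg_distrib]
      refine sum_congr rfl fun b _ => ?_
      rw [← sum_neg_distrib]
      refine sum_congr rfl fun a _ => ?_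
      rw [hA a b]
      ring
    linarith
  have e1 : ∑ a, ∑ b, A a b * (w a * u b) = ∑ b, u b ^ 2 := by
    rw [sum_comm]
    refine sum_congr rfl fun b _ => ?_
    calc ∑ a, A a b * (w a * u b) = u b * ∑ a, w a * A a b := by
          rw [mul_sum]; exact sum_congr rfl fun a _ => by ring
      _ = u b ^ 2 := by rw [← hu]; ring
  have e2 : ∑ a, ∑ b, A a b * (u a * w b) = - ∑ b, u b ^ 2 := by
    rw [← sum_neg_distrib]
    refine sum_congr rfl fun a _ => ?_
    calc ∑ b, A a b * (u a * w b) = - (u a * ∑ b, w b * A b a) := by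
          rw [mul_sum, ← sum_neg_distrib]
          exact sum_congr rfl fun b _ => by rw [hA a b]; ring
      _ = -u a ^ 2 := by rw [← hu]; ring
  have e3 : ∑ a, ∑ b, (w a * u b) * (w a * u b) = ∑ b, u b ^ 2 := by
    calc ∑ a, ∑ b, (w a * u b) * (w a * u b) = ∑ a, w a ^ 2 * ∑ b, u b ^ 2 := by
          refine sum_congr rfl fun a _ => ?_
          rw [mul_sum]
          exact sum_congr rfl fun b _ => by ring
      _ = ∑ b, u b ^ 2 := by rw [← sum_mul, hw, one_mul]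
  have e4 : ∑ a, ∑ b, (u a * w b) * (u a * w b) = ∑ b, u b ^ 2 := by
    calc ∑ a, ∑ b, (u a * w b) * (u a * w b) = ∑ a, u a ^ 2 * ∑ b, w b ^ 2 := by
          refine sum_congr rfl fun a _ => ?_
          rw [mul_sum]
          exact sum_congr rfl fun b _ => by ring
      _ = ∑ b, u b ^ 2 := by rw [← sum_mul, hw, mul_one]
  have e5 : ∑ a, ∑ b, (w a * u b) * (u a * w b) = 0 := by
    calc ∑ a, ∑ b, (w a * u b) * (u a * w b) = ∑ a, (w a * u a) * ∑ b, w b * u b := by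
          refine sum_congr rfl fun a _ => ?_
          rw [mul_sum]
          exact sum_congr rfl fun b _ => by ring
      _ = 0 := by rw [hwu]; simp
  have e6 : ∑ a, ∑ b, (A a b - w a * u b + u a * w b) ^ 2 =
      ∑ a, ∑ b, A a b ^ 2 + ∑ a, ∑ b, (w a * u b) * (w a * u b) +
        ∑ a, ∑ b, (u a * w b) * (u a * w b) - 2 * ∑ a, ∑ b, A a b * (w a * u b) +
        2 * ∑ a, ∑ b, A a b * (u a * w b) - 2 * ∑ a, ∑ b, (w a * u b) * (u a * w b) := by
    simp only [mul_sum, ← sum_add_distrib, ← sum_sub_distrib]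
    exact sum_congr rfl fun a _ => sum_congr rfl fun b _ => by ring
  rw [e6, e1, e2, e3, e4, e5]
  ring

/-- Cauchy-Schwarz on `Λ² w^⊥`. -/
theorem arr_cs (A X : Fin 6 → Fin 6 → ℝ) (hA : ∀ a b, A b a = - A a b)
    (hX : ∀ a b, X b a = - X a b) (w : Fin 6 → ℝ)
    (hw : ∑ a, w a ^ 2 = 1) (hwX : ∀ b, ∑ a, w a * X a b = 0) (s : ℝ)
    (hA2 : ∑ a, ∑ b, A a b ^ 2 ≤ 2) (hs : s ≤ ∑ b, (∑ a, w a * A a b) ^ 2) :
    (∑ a, ∑ b, A a b * X a b) ^ 2 ≤ 2 * (1 - s) * ∑ a, ∑ b, X a b ^ 2 := by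
  obtain ⟨u, hu⟩ : ∃ u : Fin 6 → ℝ, ∀ b, u b = ∑ a, w a * A a b := ⟨_, fun _ => rfl⟩
  have h0 := arr_norm A hA w hw u hu
  have h1 : ∑ a, ∑ b, A a b * X a b = ∑ a, ∑ b, (A a b - w a * u b + u a * w b) * X a b := by
    have f1 : ∑ a, ∑ b, (w a * u b) * X a b = 0 := by
      rw [sum_comm]
      refine sum_eq_zero fun b _ => ?_
      calc ∑ a, (w a * u b) * X a b = u b * ∑ a, w a * X a b := by
            rw [mul_sum]; exact sum_congr rfl fun a _ => by ring
        _ = 0 := by rw [hwX, mul_zero]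
    have f2 : ∑ a, ∑ b, (u a * w b) * X a b = 0 := by
      refine sum_eq_zero fun a _ => ?_
      calc ∑ b, (u a * w b) * X a b = - (u a * ∑ b, w b * X b a) := by
            rw [mul_sum, ← sum_neg_distrib]
            exact sum_congr rfl fun b _ => by rw [hX a b]; ring
        _ = 0 := by rw [hwX, mul_zero, neg_zero]
    have f3 : ∑ a, ∑ b, (A a b - w a * u b + u a * w b) * X a b =
        ∑ a, ∑ b, A a b * X a b - ∑ a, ∑ b, (w a * u b) * X a b +
          ∑ a, ∑ b, (u a * w b) * X a b := by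
      simp only [← sum_add_distrib, ← sum_sub_distrib]
      exact sum_congr rfl fun a _ => sum_congr rfl fun b _ => by ring
    rw [f3, f1, f2]
    ring
  have h2 : (∑ a, ∑ b, (A a b - w a * u b + u a * w b) * X a b) ^ 2 ≤
      (∑ a, ∑ b, (A a b - w a * u b + u a * w b) ^ 2) * ∑ a, ∑ b, X a b ^ 2 := by
    have := Finset.sum_mul_sq_le_sq_mul_sq (Finset.univ : Finset (Fin 6 × Fin 6))
      (fun p => A p.1 p.2 - w p.1 * u p.2 + u p.1 * w p.2) (fun p => X p.1 p.2)
    simpa only [Fintype.sum_prod_type] using this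
  have h3 : ∑ b, (∑ a, w a * A a b) ^ 2 = ∑ b, u b ^ 2 :=
    sum_congr rfl fun b _ => by rw [hu]
  have h4 : 0 ≤ ∑ a, ∑ b, X a b ^ 2 := sum_nonneg fun a _ => sum_nonneg fun b _ => sq_nonneg _
  rw [h1]
  refine h2.trans ?_
  rw [h0]
  refine mul_le_mul_of_nonneg_right ?_ h4
  linarith


section

open Hopf6 Pool.Agent.TH569.HP

variable {V : Type} [NormedAddCommGroup V] [InnerProductSpace ℝ V]

theorem parseval (e : OrthonormalBasis (Fin 6) ℝ V) (x y : V) :
    ∑ a, inner ℝ (e a) x * inner ℝ (e a) y = inner ℝ x y := by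
  have h := e.sum_inner_mul_inner x y
  rw [← h]
  exact sum_congr rfl fun a _ => by rw [real_inner_comm (e a) x]

theorem bil_coord (e : OrthonormalBasis (Fin 6) ℝ V) (A : V →ₗ[ℝ] V →ₗ[ℝ] ℝ) (x y : V) :
    ∑ a, ∑ b, A (e a) (e b) * (inner ℝ (e a) x * inner ℝ (e b) y) = A x y := by
  have hx : x = ∑ a, (inner ℝ (e a) x) • e a := by
    have := e.sum_repr' x
    exact this.symm
  have hy : y = ∑ a, (inner ℝ (e a) y) • e a := by
    have := e.sum_repr' y
    exact this.symm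
  conv_rhs => rw [hx, hy]
  simp only [map_sum, LinearMap.sum_apply, map_smul, LinearMap.smul_apply, smul_eq_mul, mul_sum]
  rw [sum_comm]
  refine sum_congr rfl fun b _ => sum_congr rfl fun a _ => ?_
  ring

/-- the array of a finite sum of simple bivectors -/
noncomputable def arr (e : OrthonormalBasis (Fin 6) ℝ V) {n : ℕ} (x y : Fin n → V)
    (a b : Fin 6) : ℝ :=
  ∑ i, (inner ℝ (e a) (x i) * inner ℝ (e b) (y i) - inner ℝ (e b) (x i) * inner ℝ (e a) (y i))

theorem arr_skew (e : OrthonormalBasis (Fin 6) ℝ V) {n : ℕ} (x y : Fin n → V) (a b : Fin 6) :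
    arr e x y b a = - arr e x y a b := by
  unfold arr
  rw [← sum_neg_distrib]
  exact sum_congr rfl fun i _ => by ring

theorem swap3 {n : ℕ} (f : Fin 6 → Fin 6 → Fin n → ℝ) :
    ∑ a, ∑ b, ∑ i, f a b i = ∑ i, ∑ a, ∑ b, f a b i := by
  calc ∑ a, ∑ b, ∑ i, f a b i = ∑ a, ∑ i, ∑ b, f a b i :=
        sum_congr rfl fun a _ => sum_comm
    _ = ∑ i, ∑ a, ∑ b, f a b i := sum_comm

theorem arr_pair (e : OrthonormalBasis (Fin 6) ℝ V) (A : V →ₗ[ℝ] V →ₗ[ℝ] ℝ)
    (hA : ∀ x y, A y x = - A x y) {n : ℕ} (x y : Fin n → V) :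
    ∑ a, ∑ b, A (e a) (e b) * arr e x y a b = 2 * ∑ i, A (x i) (y i) := by
  have h1 : ∑ a, ∑ b, A (e a) (e b) * arr e x y a b =
      ∑ i, (∑ a, ∑ b, A (e a) (e b) * (inner ℝ (e a) (x i) * inner ℝ (e b) (y i)) -
        ∑ a, ∑ b, A (e a) (e b) * (inner ℝ (e a) (y i) * inner ℝ (e b) (x i))) := by
    simp only [arr, mul_sum]
    rw [swap3]
    refine sum_congr rfl fun i _ => ?_
    simp only [← sum_sub_distrib]
    exact sum_congr rfl fun a _ => sum_congr rfl fun b _ => by ring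
  rw [h1, mul_sum]
  refine sum_congr rfl fun i _ => ?_
  rw [bil_coord, bil_coord, hA (x i) (y i)]
  ring

theorem arr_norm2 (e : OrthonormalBasis (Fin 6) ℝ V) {n : ℕ} (x y : Fin n → V) :
    ∑ a, ∑ b, arr e x y a b ^ 2 = 2 * ∑ i, ∑ j, unitT (x i) (y i) (x j) (y j) := by
  have h0 : ∀ p q r t : V, ∑ a, ∑ b, (inner ℝ (e a) p * inner ℝ (e b) q) *
      (inner ℝ (e a) r * inner ℝ (e b) t) = inner ℝ p r * inner ℝ q t := by
    intro p q r t
    rw [← parseval e p r, ← parseval e q t, sum_mul_sum]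
    exact sum_congr rfl fun a _ => sum_congr rfl fun b _ => by ring
  have h1 : ∑ a, ∑ b, arr e x y a b ^ 2 = ∑ i, ∑ j, ∑ a, ∑ b,
      ((inner ℝ (e a) (x i) * inner ℝ (e b) (y i)) * (inner ℝ (e a) (x j) * inner ℝ (e b) (y j)) -
       (inner ℝ (e a) (x i) * inner ℝ (e b) (y i)) * (inner ℝ (e a) (y j) * inner ℝ (e b) (x j)) -
       (inner ℝ (e a) (y i) * inner ℝ (e b) (x i)) * (inner ℝ (e a) (x j) * inner ℝ (e b) (y j)) +
       (inner ℝ (e a) (y i) * inner ℝ (e b) (x i)) *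
        (inner ℝ (e a) (y j) * inner ℝ (e b) (x j))) := by
    have h2 : ∀ a b, arr e x y a b ^ 2 = ∑ i, ∑ j,
      ((inner ℝ (e a) (x i) * inner ℝ (e b) (y i)) * (inner ℝ (e a) (x j) * inner ℝ (e b) (y j)) -
       (inner ℝ (e a) (x i) * inner ℝ (e b) (y i)) * (inner ℝ (e a) (y j) * inner ℝ (e b) (x j)) -
       (inner ℝ (e a) (y i) * inner ℝ (e b) (x i)) * (inner ℝ (e a) (x j) * inner ℝ (e b) (y j)) +
       (inner ℝ (e a) (y i) * inner ℝ (e b) (x i)) *
        (inner ℝ (e a) (y j) * inner ℝ (e b) (x j))) := by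
      intro a b
      rw [pow_two]
      unfold arr
      rw [sum_mul_sum]
      exact sum_congr rfl fun i _ => sum_congr rfl fun j _ => by ring
    simp only [h2]
    rw [swap3]
    refine sum_congr rfl fun i _ => ?_
    rw [swap3]
  rw [h1, mul_sum]
  refine sum_congr rfl fun i _ => ?_
  rw [mul_sum]
  refine sum_congr rfl fun j _ => ?_
  simp only [sum_add_distrib, sum_sub_distrib, h0]
  unfold unitT
  ring

/-- The hyperplane condition from one two-form. -/
theorem hyper_of_form (e : OrthonormalBasis (Fin 6) ℝ V) {R : V → V → V → V → ℝ}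
    {l m s : ℝ} (hlm : 0 ≤ l + m) (A : V →ₗ[ℝ] V →ₗ[ℝ] ℝ) (hA : ∀ x y, A y x = - A x y)
    (hA2 : ∑ a, ∑ b, A (e a) (e b) ^ 2 ≤ 2)
    (hs : ∀ w : V, ‖w‖ = 1 → s ≤ ∑ b, A w (e b) ^ 2)
    (hR : ∀ (n : ℕ) (x y : Fin n → V),
      ∑ i, ∑ j, (R (x i) (y i) (x j) (y j) + l * unitT (x i) (y i) (x j) (y j)) ≤
        (l + m) * (∑ i, A (x i) (y i)) ^ 2)
    (H : Submodule ℝ V) (hH : Module.finrank ℝ H = 5) :
    OpLE R (l - (l + m) * (1 - s)) H := by
  have : FiniteDimensional ℝ V := e.toBasis.finiteDimensional_of_finite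
  have hV : Module.finrank ℝ V = 6 := by
    have := Module.finrank_eq_card_basis e.toBasis
    simpa using this
  obtain ⟨w, hwH, hw1⟩ : ∃ w : V, w ∈ Hᗮ ∧ ‖w‖ = 1 := by
    have h1 : Module.finrank ℝ Hᗮ = 1 := by
      have := H.finrank_add_finrank_orthogonal
      omega
    obtain ⟨v, hv, hv0⟩ : ∃ v ∈ Hᗮ, v ≠ 0 := by
      have h2 : 0 < Module.finrank ℝ Hᗮ := by omega
      have : Nontrivial Hᗮ := Module.finrank_pos_iff.1 h2
      obtain ⟨v, hv⟩ := exists_ne (0 : Hᗮ)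
      exact ⟨v.1, v.2, fun h => hv (Subtype.ext h)⟩
    refine ⟨‖v‖⁻¹ • v, Hᗮ.smul_mem _ hv, ?_⟩
    rw [norm_smul, norm_inv, norm_norm]
    exact inv_mul_cancel₀ (norm_ne_zero_iff.2 hv0)
  intro n x y hxy
  have hX : ∀ b, ∑ a, inner ℝ (e a) w * arr e x y a b = 0 := by
    intro b
    unfold arr
    simp only [mul_sum]
    rw [sum_comm]
    refine sum_eq_zero fun i _ => ?_
    have h1 : inner ℝ w (x i) = 0 := (H.mem_orthogonal' w).1 hwH _ (hxy i).1
    have h2 : inner ℝ w (y i) = 0 := (H.mem_orthogonal' w).1 hwH _ (hxy i).2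
    have h3 := parseval e w (x i)
    have h4 := parseval e w (y i)
    rw [h1] at h3
    rw [h2] at h4
    calc ∑ a, inner ℝ (e a) w * (inner ℝ (e a) (x i) * inner ℝ (e b) (y i) -
          inner ℝ (e b) (x i) * inner ℝ (e a) (y i)) =
        inner ℝ (e b) (y i) * ∑ a, inner ℝ (e a) w * inner ℝ (e a) (x i) -
          inner ℝ (e b) (x i) * ∑ a, inner ℝ (e a) w * inner ℝ (e a) (y i) := by
          rw [mul_sum, mul_sum, ← sum_sub_distrib]
          exact sum_congr rfl fun a _ => by ring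
      _ = 0 := by rw [h3, h4]; ring
  have hw2 : ∑ a, inner ℝ (e a) w ^ 2 = 1 := by
    have := parseval e w w
    rw [real_inner_self_eq_norm_sq, hw1] at this
    rw [← one_pow 2, ← this]
    exact sum_congr rfl fun a _ => by ring
  have hAw : ∀ b, ∑ a, inner ℝ (e a) w * A (e a) (e b) = A w (e b) := by
    intro b
    have hx : w = ∑ a, (inner ℝ (e a) w) • e a := (e.sum_repr' w).symm
    conv_rhs => rw [hx]
    simp only [map_sum, LinearMap.sum_apply, map_smul, LinearMap.smul_apply, smul_eq_mul]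
  have h5 := arr_cs (fun a b => A (e a) (e b)) (arr e x y) (fun a b => hA _ _)
    (fun a b => arr_skew e x y a b) (fun a => inner ℝ (e a) w) hw2 hX s hA2
    (by simpa only [hAw] using hs w hw1)
  rw [arr_pair e A hA, arr_norm2] at h5
  have h6 := hR n x y
  have h7 : ∑ i, ∑ j, (R (x i) (y i) (x j) (y j) +
      (l - (l + m) * (1 - s)) * unitT (x i) (y i) (x j) (y j)) =
      ∑ i, ∑ j, (R (x i) (y i) (x j) (y j) + l * unitT (x i) (y i) (x j) (y j)) -
        (l + m) * (1 - s) * ∑ i, ∑ j, unitT (x i) (y i) (x j) (y j) := by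
    simp only [mul_sum, ← sum_sub_distrib]
    exact sum_congr rfl fun i _ => sum_congr rfl fun j _ => by ring
  rw [h7]
  have h8 : (∑ i, A (x i) (y i)) ^ 2 ≤
      (1 - s) * ∑ i, ∑ j, unitT (x i) (y i) (x j) (y j) := by
    have : (2 * ∑ i, A (x i) (y i)) ^ 2 = 4 * (∑ i, A (x i) (y i)) ^ 2 := by ring
    rw [this] at h5
    linarith
  have h9 := mul_le_mul_of_nonneg_left h8 hlm
  linarith

/-! ### the model family -/

/-- `2 ⟨Jx, y⟩⟨Jz, w⟩ + ⟨Jx, z⟩⟨Jy, w⟩ - ⟨Jx, w⟩⟨Jy, z⟩` -/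
def cxT (J : V →ₗ[ℝ] V) (x y z w : V) : ℝ :=
  2 * (inner ℝ (J x) y * inner ℝ (J z) w) + inner ℝ (J x) z * inner ℝ (J y) w -
    inner ℝ (J x) w * inner ℝ (J y) z

/-- `-R₀ + c K_J` -/
def model (J : V →ₗ[ℝ] V) (c : ℝ) (x y z w : V) : ℝ :=
  -(unitT x y z w) + c * cxT J x y z w

/-- orthogonal complex structures -/
structure IsOCS (J : V →ₗ[ℝ] V) : Prop where
  iso : ∀ x y, inner ℝ (J x) (J y) = inner ℝ x y
  skew : ∀ x y, inner ℝ (J x) y = - inner ℝ (J y) x

theorem IsOCS.sq {J : V →ₗ[ℝ] V} (hJ : IsOCS J) (x y : V) :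
    inner ℝ (J (J x)) y = - inner ℝ x y := by
  rw [hJ.skew (J x) y, real_inner_comm (J x) (J y), hJ.iso]

theorem model_curv {J : V →ₗ[ℝ] V} (hJ : IsOCS J) (c : ℝ) : AlgCurv (model J c) := by
  refine ⟨fun x x' y z w => ?_, fun t x y z w => ?_, fun x y z w => ?_, fun x y z w => ?_,
    fun x y z w => ?_⟩
  · unfold model unitT cxT
    simp only [inner_add_left, map_add]
    ring
  · unfold model unitT cxT
    simp only [inner_smul_left, map_smul, conj_trivial]
    ring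
  · unfold model unitT cxT
    rw [hJ.skew y x]
    ring
  · unfold model unitT cxT
    rw [real_inner_comm x z, real_inner_comm y w, real_inner_comm x w, real_inner_comm y z,
      hJ.skew z x, hJ.skew w y, hJ.skew z y, hJ.skew w x]
    ring
  · unfold model unitT cxT
    rw [real_inner_comm x y, real_inner_comm x z, real_inner_comm y z, hJ.skew y x,
      hJ.skew z x, hJ.skew z y]
    ring

theorem arr_inner (e : OrthonormalBasis (Fin 6) ℝ V) {n : ℕ} (x y x' y' : Fin n → V) :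
    ∑ a, ∑ b, arr e x y a b * arr e x' y' a b =
      2 * ∑ i, ∑ j, (inner ℝ (x i) (x' j) * inner ℝ (y i) (y' j) -
        inner ℝ (x i) (y' j) * inner ℝ (y i) (x' j)) := by
  have h0 : ∀ p q r t : V, ∑ a, ∑ b, (inner ℝ (e a) p * inner ℝ (e b) q) *
      (inner ℝ (e a) r * inner ℝ (e b) t) = inner ℝ p r * inner ℝ q t := by
    intro p q r t
    rw [← parseval e p r, ← parseval e q t, sum_mul_sum]
    exact sum_congr rfl fun a _ => sum_congr rfl fun b _ => by ring
  have h1 : ∑ a, ∑ b, arr e x y a b * arr e x' y' a b = ∑ i, ∑ j, ∑ a, ∑ b,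
      ((inner ℝ (e a) (x i) * inner ℝ (e b) (y i)) *
        (inner ℝ (e a) (x' j) * inner ℝ (e b) (y' j)) -
       (inner ℝ (e a) (x i) * inner ℝ (e b) (y i)) *
        (inner ℝ (e a) (y' j) * inner ℝ (e b) (x' j)) -
       (inner ℝ (e a) (y i) * inner ℝ (e b) (x i)) *
        (inner ℝ (e a) (x' j) * inner ℝ (e b) (y' j)) +
       (inner ℝ (e a) (y i) * inner ℝ (e b) (x i)) *
        (inner ℝ (e a) (y' j) * inner ℝ (e b) (x' j))) := by
    have h2 : ∀ a b, arr e x y a b * arr e x' y' a b = ∑ i, ∑ j,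
      ((inner ℝ (e a) (x i) * inner ℝ (e b) (y i)) *
        (inner ℝ (e a) (x' j) * inner ℝ (e b) (y' j)) -
       (inner ℝ (e a) (x i) * inner ℝ (e b) (y i)) *
        (inner ℝ (e a) (y' j) * inner ℝ (e b) (x' j)) -
       (inner ℝ (e a) (y i) * inner ℝ (e b) (x i)) *
        (inner ℝ (e a) (x' j) * inner ℝ (e b) (y' j)) +
       (inner ℝ (e a) (y i) * inner ℝ (e b) (x i)) *
        (inner ℝ (e a) (y' j) * inner ℝ (e b) (x' j))) := by
      intro a b
      unfold arr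
      rw [sum_mul_sum]
      exact sum_congr rfl fun i _ => sum_congr rfl fun j _ => by ring
    simp only [h2]
    rw [swap3]
    refine sum_congr rfl fun i _ => ?_
    rw [swap3]
  rw [h1, mul_sum]
  refine sum_congr rfl fun i _ => ?_
  rw [mul_sum]
  refine sum_congr rfl fun j _ => ?_
  simp only [sum_add_distrib, sum_sub_distrib, h0]
  ring

theorem cx_le (e : OrthonormalBasis (Fin 6) ℝ V) {J : V →ₗ[ℝ] V} (hJ : IsOCS J) {n : ℕ}
    (x y : Fin n → V) :
    ∑ i, ∑ j, (inner ℝ (J (x i)) (x j) * inner ℝ (J (y i)) (y j) -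
      inner ℝ (J (x i)) (y j) * inner ℝ (J (y i)) (x j)) ≤
      ∑ i, ∑ j, unitT (x i) (y i) (x j) (y j) := by
  have h1 := arr_inner e (fun i => J (x i)) (fun i => J (y i)) x y
  have h2 := arr_norm2 e x y
  have h3 : ∑ a, ∑ b, arr e (fun i => J (x i)) (fun i => J (y i)) a b ^ 2 =
      ∑ a, ∑ b, arr e x y a b ^ 2 := by
    rw [arr_norm2, arr_norm2]
    simp only [unitT, hJ.iso]
  have h4 : 0 ≤ ∑ a, ∑ b, (arr e (fun i => J (x i)) (fun i => J (y i)) a b -
      arr e x y a b) ^ 2 := sum_nonneg fun a _ => sum_nonneg fun b _ => sq_nonneg _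
  have h5 : ∑ a, ∑ b, (arr e (fun i => J (x i)) (fun i => J (y i)) a b -
      arr e x y a b) ^ 2 =
      ∑ a, ∑ b, arr e (fun i => J (x i)) (fun i => J (y i)) a b ^ 2 +
        ∑ a, ∑ b, arr e x y a b ^ 2 -
        2 * ∑ a, ∑ b, arr e (fun i => J (x i)) (fun i => J (y i)) a b * arr e x y a b := by
    simp only [mul_sum, ← sum_add_distrib, ← sum_sub_distrib]
    exact sum_congr rfl fun a _ => sum_congr rfl fun b _ => by ring
  rw [h3, h1, h2] at h5
  linarith

/-- the two-form of `J`, normalised -/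
noncomputable def jform (J : V →ₗ[ℝ] V) : V →ₗ[ℝ] V →ₗ[ℝ] ℝ :=
  LinearMap.mk₂ ℝ (fun x y => (√3)⁻¹ * inner ℝ (J x) y)
    (fun x x' y => by rw [map_add, inner_add_left, mul_add])
    (fun t x y => by rw [map_smul, inner_smul_left]; simp only [conj_trivial, smul_eq_mul]; ring)
    (fun x y y' => by rw [inner_add_right, mul_add])
    (fun t x y => by rw [inner_smul_right]; simp only [smul_eq_mul]; ring)

theorem jform_apply (J : V →ₗ[ℝ] V) (x y : V) : jform J x y = (√3)⁻¹ * inner ℝ (J x) y := rfl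

theorem sum_inner_sq (e : OrthonormalBasis (Fin 6) ℝ V) (x : V) :
    ∑ b, inner ℝ x (e b) ^ 2 = inner ℝ x x := by
  rw [← parseval e x x]
  exact sum_congr rfl fun b _ => by rw [real_inner_comm (e b) x]; ring

theorem sqrt3 : (√3 : ℝ)⁻¹ ^ 2 = 1 / 3 := by
  rw [inv_pow, Real.sq_sqrt (by norm_num)]
  norm_num

theorem model_hyper (e : OrthonormalBasis (Fin 6) ℝ V) {J : V →ₗ[ℝ] V} (hJ : IsOCS J) {c : ℝ}
    (hc : 0 ≤ c) (H : Submodule ℝ V) (hH : Module.finrank ℝ H = 5) :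
    OpLE (model J c) (1 - 5 * c) H := by
  have h := hyper_of_form e (R := model J c) (l := 1 - c) (m := 7 * c - 1) (s := 1 / 3)
    (by linarith) (jform J)
    (fun x y => by rw [jform_apply, jform_apply, hJ.skew y x]; ring) ?_ ?_ ?_ H hH
  · have e1 : (1 - c) - ((1 - c) + (7 * c - 1)) * (1 - 1 / 3) = 1 - 5 * c := by ring
    rwa [e1] at h
  · simp only [jform_apply, mul_pow, sqrt3, ← mul_sum, sum_inner_sq, hJ.iso]
    have : ∀ a, (inner ℝ (e a) (e a) : ℝ) = 1 := fun a => by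
      rw [OrthonormalBasis.inner_eq_ite]
      simp
    simp only [this]
    norm_num
  · intro w hw
    simp only [jform_apply, mul_pow, sqrt3, ← mul_sum, sum_inner_sq, hJ.iso]
    rw [real_inner_self_eq_norm_sq, hw]
    norm_num
  · intro n x y
    have h1 := cx_le e hJ x y
    have h2 : ∑ i, ∑ j, (model J c (x i) (y i) (x j) (y j) +
        (1 - c) * unitT (x i) (y i) (x j) (y j)) =
        c * (2 * (∑ i, inner ℝ (J (x i)) (y i)) ^ 2 +
          ∑ i, ∑ j, (inner ℝ (J (x i)) (x j) * inner ℝ (J (y i)) (y j) -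
            inner ℝ (J (x i)) (y j) * inner ℝ (J (y i)) (x j)) -
          ∑ i, ∑ j, unitT (x i) (y i) (x j) (y j)) := by
      rw [pow_two, sum_mul_sum]
      simp only [mul_sum, ← sum_add_distrib, ← sum_sub_distrib]
      refine sum_congr rfl fun i _ => sum_congr rfl fun j _ => ?_
      unfold model cxT
      ring
    have h3 : (∑ i, jform J (x i) (y i)) ^ 2 = 1 / 3 * (∑ i, inner ℝ (J (x i)) (y i)) ^ 2 := by
      simp only [jform_apply, ← mul_sum, mul_pow, sqrt3]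
    rw [h2, h3]
    have h4 := mul_le_mul_of_nonneg_left h1 hc
    nlinarith [h4]

theorem model_top (e : OrthonormalBasis (Fin 6) ℝ V) {J : V →ₗ[ℝ] V} (hJ : IsOCS J) (c : ℝ) :
    ∑ a, ∑ b, model J c (e a) (J (e a)) (e b) (J (e b)) = 84 * c - 12 := by
  have hd : ∀ a b, (inner ℝ (e a) (e b) : ℝ) = if a = b then 1 else 0 := fun a b => by
    rw [OrthonormalBasis.inner_eq_ite]
  have h1 : ∀ a b, model J c (e a) (J (e a)) (e b) (J (e b)) =
      -((if a = b then 1 else 0) + inner ℝ (J (e a)) (e b) ^ 2) +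
        c * (2 + inner ℝ (J (e a)) (e b) ^ 2 + (if a = b then 1 else 0)) := by
    intro a b
    unfold model unitT cxT
    have e1 : (inner ℝ (J (e a)) (J (e a)) : ℝ) = 1 := by rw [hJ.iso, hd, if_pos rfl]
    have e2 : (inner ℝ (J (e b)) (J (e b)) : ℝ) = 1 := by rw [hJ.iso, hd, if_pos rfl]
    have e3 : (inner ℝ (J (J (e a))) (J (e b)) : ℝ) = inner ℝ (J (e a)) (e b) := hJ.iso _ _
    have e4 : (inner ℝ (e a) (J (e b)) : ℝ) = - inner ℝ (J (e a)) (e b) := by
      rw [real_inner_comm, hJ.skew]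
    rw [e1, e2, e3, e4, hJ.iso, hJ.sq, hd]
    by_cases h : a = b
    · rw [if_pos h]; ring
    · rw [if_neg h]; ring
  have h2 : ∑ a, ∑ b, (inner ℝ (J (e a)) (e b) : ℝ) ^ 2 = 6 := by
    simp only [sum_inner_sq, hJ.iso, hd]
    simp
  have h3 : ∑ a : Fin 6, ∑ b : Fin 6, (if a = b then (1 : ℝ) else 0) = 6 := by simp
  calc ∑ a, ∑ b, model J c (e a) (J (e a)) (e b) (J (e b)) =
      -(∑ a : Fin 6, ∑ b : Fin 6, (if a = b then (1 : ℝ) else 0) +
        ∑ a, ∑ b, (inner ℝ (J (e a)) (e b) : ℝ) ^ 2) +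
        c * (∑ a : Fin 6, ∑ b : Fin 6, (2 : ℝ) + ∑ a, ∑ b, (inner ℝ (J (e a)) (e b) : ℝ) ^ 2 +
          ∑ a : Fin 6, ∑ b : Fin 6, (if a = b then (1 : ℝ) else 0)) := by
        simp only [h1, mul_sum, ← sum_add_distrib, ← sum_neg_distrib]
    _ = 84 * c - 12 := by
        rw [h2, h3]
        simp
        ring

end

end Pool.Agent.N500.HP6
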